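import Pool.Agent.MVO.StmtsV

/-!
# Squad MVO, row MRG: substitution of a simple letter by a word
-/

set_option autoImplicit false

namespace Pool.Agent.MVO.H7

open Pool.Agent.Helper14_MV Pool.Agent.Helper2_MV

/-- the substitution -/
def sgm (k i : ℕ) (M : List ℕ) (c : ℕ) : List ℕ :=
  if c = i + 2 then M else if i + 3 ≤ c ∧ c ≤ k + 2 then [c - 1] else [c]

theorem sgm_ns {k i c : ℕ} (hi : i ≤ k) (M : List ℕ) (h : NS (k + 1) c) : sgm k i M c = [c] := by
  unfold NS at h
  unfold sgm
  rw [if_neg (by omega), if_neg (by omega)]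

theorem flatMap_ns {k i : ℕ} (hi : i ≤ k) (M : List ℕ) (l : List ℕ)
    (h : ∀ c ∈ l, NS (k + 1) c) : l.flatMap (sgm k i M) = l := by
  induction l with
  | nil => rfl
  | cons a l ih =>
    rw [List.flatMap_cons, sgm_ns hi M (h a List.mem_cons_self),
      ih fun c hc => h c (List.mem_cons_of_mem _ hc)]
    rfl

theorem low {k i : ℕ} (hi : i ≤ k) (M : List ℕ) {B : ℕ → List ℕ} (hB : BlkOk (k + 1) B) :
    ∀ m ≤ i, (asm m B).flatMap (sgm k i M) = asm m B := by
  intro m
  induction m with
  | zero =>
    intro _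
    exact flatMap_ns hi M _ (hB 0 (Nat.zero_le _))
  | succ m ih =>
    intro hm
    simp only [asm]
    rw [List.flatMap_append, List.flatMap_cons, ih (by omega),
      flatMap_ns hi M _ (hB (m + 1) (by omega))]
    have h1 : sgm k i M (m + 2) = [m + 2] := by
      unfold sgm
      rw [if_neg (by omega), if_neg (by omega)]
    rw [h1]
    rfl

theorem base (i : ℕ) (M : List ℕ) (B : ℕ → List ℕ) :
    asm i (mrg i M B) = asm i B ++ (M ++ B (i + 1)) := by
  cases i with
  | zero => simp [asm, mrg]
  | succ i =>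
    simp only [asm]
    have h1 : asm i (mrg (i + 1) M B) = asm i B := asm_congr fun j hj => by
      unfold mrg
      rw [if_pos (by omega)]
    have h2 : mrg (i + 1) M B (i + 1) = B (i + 1) ++ M ++ B (i + 1 + 1) := by
      unfold mrg
      rw [if_neg (by omega), if_pos rfl]
    rw [h1, h2]
    simp

theorem high {k i : ℕ} (hi : i ≤ k) (M : List ℕ) {B : ℕ → List ℕ} (hB : BlkOk (k + 1) B)
    (m : ℕ) (hm : i ≤ m) :
    m ≤ k → (asm (m + 1) B).flatMap (sgm k i M) = asm m (mrg i M B) := by
  induction m, hm using Nat.le_induction with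
  | base =>
    intro _
    rw [base]
    simp only [asm]
    rw [List.flatMap_append, List.flatMap_cons, low hi M hB i le_rfl,
      flatMap_ns hi M _ (hB (i + 1) (by omega))]
    have h1 : sgm k i M (i + 2) = M := by
      unfold sgm
      rw [if_pos rfl]
    rw [h1]
  | succ m hm ih =>
    intro hmk
    have e : asm (m + 1 + 1) B = asm (m + 1) B ++ (m + 1 + 2) :: B (m + 1 + 1) := rfl
    have e' : asm (m + 1) (mrg i M B) = asm m (mrg i M B) ++ (m + 2) :: mrg i M B (m + 1) := rfl
    rw [e, e', List.flatMap_append, List.flatMap_cons, ih (by omega),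
      flatMap_ns hi M _ (hB (m + 1 + 1) (by omega))]
    have h1 : sgm k i M (m + 1 + 2) = [m + 2] := by
      unfold sgm
      rw [if_neg (by omega), if_pos (by omega)]
      rfl
    have h2 : mrg i M B (m + 1) = B (m + 1 + 1) := by
      unfold mrg
      rw [if_neg (by omega), if_neg (by omega)]
    rw [h1, h2]
    rfl

theorem mrg : MrgStmt := by
  intro ω k i M B B' hi hB hB' h
  have h1 := RR.sub (sgm k i M) h
  rwa [high hi M hB k hi le_rfl, high hi M hB' k hi le_rfl] at h1

end Pool.Agent.MVO.H7
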