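import Pool.Agent.MVO.StmtsN

/-!
# Squad MVO, row NPD: `(2,1) ~ (0,3)`
-/

set_option autoImplicit false

namespace Pool.Agent.MVO.H7

open Pool.Agent.Helper14_MV Pool.Agent.Helper2_MV

theorem rr_op (β : FIC) (l l' : List ℕ) : RR (FIC.op β) l l' ↔ RR β l.reverse l'.reverse :=
  Iff.rfl

theorem sq_of_le {β : FIC} (h : β ≤ thC3) (w : Word) (hw : β.r (lx ^ 2) w) : w = lx ^ 2 := by
  have h1 := h _ _ hw
  exact (h1 (MonoidHom.id _) (lx ^ 2) (mem_I2.2 ⟨_, le_rfl, rfl⟩)).1 rfl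

theorem op_le {β : FIC} (h : β ≤ thC3) : FIC.op β ≤ thC3 := by
  apply le_thC3
  intro w hw
  have h4 : β.r (lx ^ 2).reverse w.reverse := hw
  rw [FIC.reverse_pow, rev_lx] at h4
  have h5 := sq_of_le h _ h4
  have h6 := congrArg FreeMonoid.reverse h5
  rwa [FreeMonoid.reverse_reverse, FIC.reverse_pow, rev_lx] at h6

theorem op_nc2 {β : FIC} (h : NC2 β) : NC2 (FIC.op β) := by
  intro h1
  rw [rr_op] at h1
  exact h (β.symm h1)

theorem op_cent {β : FIC} (h : Cent β) : Cent (FIC.op β) := by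
  obtain ⟨K, hK⟩ := h
  refine ⟨K, fun m hm => ?_⟩
  rw [rr_op]
  have h1 := hK m hm
  simp only [List.reverse_append, List.reverse_replicate, List.reverse_cons, List.reverse_nil,
    List.nil_append, List.singleton_append]
  exact β.symm h1

theorem v2_rev (p q j : ℕ) (hj : j ≤ 1) : v2 p q (1 - j) = v2 q p j := by
  interval_cases j <;> rfl

theorem op_l1 (rvo : RvoStmt) (β : FIC) (p q p' q' : ℕ) :
    L1 (FIC.op β) 1 (v2 p q) (v2 p' q') ↔ L1 β 1 (v2 q p) (v2 q' p') := by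
  rw [rvo]
  constructor
  · intro h
    exact (FC.ofFIC β).ext (fun j hj => v2_rev p q j hj) (fun j hj => v2_rev p' q' j hj) h
  · intro h
    exact (FC.ofFIC β).ext (fun j hj => (v2_rev p q j hj).symm)
      (fun j hj => (v2_rev p' q' j hj).symm) h

theorem l1_symm {β : FIC} {k : ℕ} {a a' : ℕ → ℕ} (h : L1 β k a a') : L1 β k a' a := β.symm h

theorem op_noo (rvo : RvoStmt) {β : FIC} (h : NoO β) : NoO (FIC.op β) where
  n1 := fun h1 => h.n1 (l1_symm ((op_l1 rvo β 2 1 1 2).1 h1))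
  n2 := fun h1 => h.n3 (l1_symm ((op_l1 rvo β 1 2 0 3).1 h1))
  n3 := fun h1 => h.n2 (l1_symm ((op_l1 rvo β 3 0 2 1).1 h1))
  n4 := fun h1 => h.n4 ⟨l1_symm ((op_l1 rvo β 1 2 3 0).1 h1.2),
    l1_symm ((op_l1 rvo β 0 3 2 1).1 h1.1)⟩

theorem npd (npc : NpcStmt) (rvo : RvoStmt) : NpdStmt := by
  intro β h1 h2 h3 h4 h5 h6
  exact npc (FIC.op β) (op_le h1) (op_nc2 h2) (op_cent h3) (op_noo rvo h4)
    ((op_l1 rvo β 3 0 1 2).2 (l1_symm h5)) (op_modF h6)

end Pool.Agent.MVO.H7
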